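import Pool.Agent.V11244.WideTree

/-! A (special) wide Aronszajn tree that does not embed into any `ω₁`-tree. -/

namespace Pool.Agent.Results.MP_6e75db_lc.SpecialNotEmbeddable

open Pool.Agent.V11244.WideTree Ordinal

/-- **Theorem (ZFC).** There is an `(ω₁, ≤ ℵ₁)`-Aronszajn tree `S` which can be specialized
without adding reals (it is even special) but does not embed into any `ω₁`-tree. Moreover
the level `ω` of `S` is uncountable. -/
theorem result : ∃ (S : Type) (_ : SetTree S), IsWideAronszajn S ∧ SpecializableWithoutReals S ∧
    IsSpecial S ∧ ¬ (level S ω).Countable ∧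
    ∀ (T : Type) (_ : SetTree T), IsOmega1Tree T → ¬ Embeds S T :=
  ⟨S, inferInstance, aronszajn_S, special_S.specializable, special_S, wide_S,
    fun _ _ hT => not_embeds hT⟩

end Pool.Agent.Results.MP_6e75db_lc.SpecialNotEmbeddable
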